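import Pool.Agent.Helper31.RG.Goals

/-! # MP_c578c8_lc, project RG: packet WRD -/

namespace Pool.Agent.Helper59.RG.PkWRD

open Pool.Agent.Helper65.LinSpace Pool.Agent.Helper78 Pool.Agent.Helper78.Mpc
  Pool.Agent.Helper78.Xor Pool.Agent.Helper95.BG Pool.Agent.Helper31.RG Finset

variable {T : Type}

theorem sl_length (w : List T) {a z : ℕ} (haz : a ≤ z) (hz : z ≤ w.length) :
    (sl w a z).length = z - a := by
  unfold sl
  rw [List.length_take, List.length_drop]
  omega

theorem sl_self (w : List T) (a : ℕ) : sl w a a = [] := by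
  unfold sl
  rw [Nat.sub_self, List.take_zero]

theorem sl_append (w : List T) {a z u : ℕ} (h1 : a ≤ z) (h2 : z ≤ u) :
    sl w a z ++ sl w z u = sl w a u := by
  unfold sl
  have e1 : u - a = (z - a) + (u - z) := by omega
  have e2 : w.drop z = (w.drop a).drop (z - a) := by
    rw [List.drop_drop]
    congr 1
    omega
  rw [e1, e2, List.take_add]

theorem flat (w : List T) (A Z : ℕ → ℕ) : ∀ n : ℕ, (∀ i ≤ n, A i ≤ Z i) →
    (∀ i < n, Z i = A (i + 1)) → A 0 ≤ Z n ∧
    (List.ofFn fun i : Fin (n + 1) => sl w (A i.val) (Z i.val)).flatten = sl w (A 0) (Z n) := by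
  intro n
  induction n with
  | zero =>
    intro h _
    refine ⟨h 0 le_rfl, ?_⟩
    simp
  | succ n ih =>
    intro h1 h2
    obtain ⟨h3, h4⟩ := ih (fun i hi => h1 i (by omega)) fun i hi => h2 i (by omega)
    have h5 : Z n = A (n + 1) := h2 n (by omega)
    have h6 := h1 (n + 1) le_rfl
    refine ⟨by omega, ?_⟩
    rw [List.ofFn_succ', List.concat_eq_append, List.flatten_append]
    have h7 : (List.ofFn fun i : Fin (n + 1) => sl w (A (Fin.castSucc i).val)
        (Z (Fin.castSucc i).val)).flatten = sl w (A 0) (Z n) := h4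
    rw [h7]
    simp only [Fin.val_last, List.flatten_cons, List.flatten_nil, List.append_nil]
    rw [h5]
    exact sl_append w (by omega) h6

section points

variable {k r N : ℕ}

theorem lD_zero (l : ℕ) : lD k r (l * (r + 1) + 0) = 2 * l := by
  unfold lD
  have h1 : (l * (r + 1) + 0) % (r + 1) = 0 := by simp
  have h2 : (l * (r + 1) + 0) / (r + 1) = l := by
    rw [add_zero]
    exact Nat.mul_div_cancel _ (Nat.succ_pos r)
  rw [h1, h2]
  rfl

theorem dm (l : ℕ) {i : ℕ} (hi : i ≤ r) : (l * (r + 1) + i) / (r + 1) = l ∧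
    (l * (r + 1) + i) % (r + 1) = i := by
  constructor
  · rw [Nat.add_comm, Nat.add_mul_div_right _ _ (Nat.succ_pos r),
      Nat.div_eq_of_lt (Nat.lt_succ_of_le hi), zero_add]
  · rw [Nat.add_comm, Nat.add_mul_mod_self_right, Nat.mod_eq_of_lt (Nat.lt_succ_of_le hi)]

theorem lD_succ (l : ℕ) {i : ℕ} (hi : i < r) :
    lD k r (l * (r + 1) + (i + 1)) = 2 * k + (l * r + i) := by
  unfold lD
  obtain ⟨h1, h2⟩ := dm (r := r) l (i := i + 1) (by omega)
  rw [h1, h2, ifz_pos (Nat.succ_ne_zero i), Nat.add_sub_cancel]

theorem rD_lt (l : ℕ) {i : ℕ} (hi : i < r) :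
    rD k r (l * (r + 1) + i) = 2 * k + (l * r + i) := by
  unfold rD
  obtain ⟨h1, h2⟩ := dm (r := r) l (i := i) (by omega)
  rw [h1, h2, ifz_pos (by omega)]

theorem rD_last (l : ℕ) : rD k r (l * (r + 1) + r) = 2 * l + 1 := by
  unfold rD
  obtain ⟨h1, h2⟩ := dm (r := r) l (i := r) le_rfl
  rw [h1, h2, Nat.sub_self]
  rfl

theorem vld_iff (e c : ℕ) : vldB k r N e c = 0 ↔
    ∀ p < k * (r + 1), pt k N e c (lD k r p) ≤ pt k N e c (rD k r p) := by
  unfold vldB
  rw [sum_eq_zero_iff]
  simp only [mem_range, lt01_eq_zero]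

theorem mul_lt (l i : ℕ) (hl : l < k) (hi : i ≤ r) : l * (r + 1) + i < k * (r + 1) := by
  have h1 : (l + 1) * (r + 1) ≤ k * (r + 1) := Nat.mul_le_mul_right _ hl
  rw [Nat.succ_mul] at h1
  omega

end points

theorem part1 (k r π : ℕ) : Inj (patt k r π) ↔ injB k r π = 0 := by
  rw [injB_eq_zero]
  have hr : 0 < r + 1 := Nat.succ_pos r
  constructor
  · intro h i hi j hj h1 h2
    have d1 : dig (k * (r + 1) + 1) π i / (r + 1) < k := (Nat.div_lt_iff_lt_mul hr).2 h1
    have e1 : patt k r π ⟨i, hi⟩ = some (⟨dig (k * (r + 1) + 1) π i / (r + 1), d1⟩,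
        ⟨dig (k * (r + 1) + 1) π i % (r + 1), Nat.mod_lt _ hr⟩) := by
      unfold patt
      rw [dif_pos d1]
    have d2 : dig (k * (r + 1) + 1) π j / (r + 1) < k := by rw [← h2]; exact d1
    have e2 : patt k r π ⟨j, hj⟩ = some (⟨dig (k * (r + 1) + 1) π i / (r + 1), d1⟩,
        ⟨dig (k * (r + 1) + 1) π i % (r + 1), Nat.mod_lt _ hr⟩) := by
      unfold patt
      rw [dif_pos d2]
      simp only [h2]
    exact Fin.mk.inj_iff.1 (h _ _ _ e1 e2)
  · intro h i j a hi hj
    unfold patt at hi hj
    split_ifs at hi with d1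
    split_ifs at hj with d2
    rw [Option.some.injEq] at hi hj
    have h3 : dig (k * (r + 1) + 1) π i.val / (r + 1) = dig (k * (r + 1) + 1) π j.val / (r + 1) := by
      have := congrArg (fun a => a.1.val) (hi.trans hj.symm)
      exact this
    have h4 : dig (k * (r + 1) + 1) π i.val % (r + 1) = dig (k * (r + 1) + 1) π j.val % (r + 1) := by
      have := congrArg (fun a => a.2.val) (hi.trans hj.symm)
      exact this
    have h5 : dig (k * (r + 1) + 1) π i.val = dig (k * (r + 1) + 1) π j.val := by
      rw [← Nat.div_add_mod (dig (k * (r + 1) + 1) π i.val) (r + 1),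
        ← Nat.div_add_mod (dig (k * (r + 1) + 1) π j.val) (r + 1), h3, h4]
    exact Fin.ext (h i.val i.2 j.val j.2 ((Nat.div_lt_iff_lt_mul hr).1 d1) h5)

theorem part2 (k r : ℕ) (π : Fin k → Option (Fin k × Fin (r + 1))) :
    ∃ π' < (k * (r + 1) + 1) ^ k, patt k r π' = π := by
  classical
  have hr : 0 < r + 1 := Nat.succ_pos r
  let f : ℕ → ℕ := fun j => if h : j < k then
    (π ⟨j, h⟩).elim (k * (r + 1)) (fun s => s.1.val * (r + 1) + s.2.val) else 0
  have hf : ∀ j < k, f j < k * (r + 1) + 1 := by
    intro j hj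
    have e1 : f j = (π ⟨j, hj⟩).elim (k * (r + 1)) (fun s => s.1.val * (r + 1) + s.2.val) :=
      dif_pos hj
    rw [e1]
    cases h : π ⟨j, hj⟩ with
    | none => simp
    | some s =>
      have := mul_lt (k := k) (r := r) s.1.val s.2.val s.1.2 (Nat.le_of_lt_succ s.2.2)
      simp only [Option.elim_some]
      omega
  refine ⟨tab (k * (r + 1) + 1) k f, tab_lt hf, ?_⟩
  funext j
  have e0 : dig (k * (r + 1) + 1) (tab (k * (r + 1) + 1) k f) j.val = f j.val := dig_tab hf j.2
  have e1 : f j.val = (π j).elim (k * (r + 1)) (fun s => s.1.val * (r + 1) + s.2.val) := by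
    change (if h : j.val < k then _ else _) = _
    rw [dif_pos j.2]
  cases h : π j with
  | none =>
    have e2 : dig (k * (r + 1) + 1) (tab (k * (r + 1) + 1) k f) j.val = k * (r + 1) := by
      rw [e0, e1, h]; rfl
    unfold patt
    rw [dif_neg (by rw [e2, Nat.mul_div_cancel _ hr]; exact lt_irrefl k)]
  | some s =>
    have e2 : dig (k * (r + 1) + 1) (tab (k * (r + 1) + 1) k f) j.val =
        s.1.val * (r + 1) + s.2.val := by
      rw [e0, e1, h]; rfl
    obtain ⟨h1, h2⟩ := dm (r := r) s.1.val (i := s.2.val) (Nat.le_of_lt_succ s.2.2)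
    unfold patt
    rw [dif_pos (by rw [e2, h1]; exact s.1.2)]
    refine congrArg some (Prod.ext (Fin.ext ?_) (Fin.ext ?_))
    · change dig (k * (r + 1) + 1) (tab (k * (r + 1) + 1) k f) j.val / (r + 1) = s.1.val
      rw [e2, h1]
    · change dig (k * (r + 1) + 1) (tab (k * (r + 1) + 1) k f) j.val % (r + 1) = s.2.val
      rw [e2, h2]

theorem thm : G_WRD := by
  classical
  intro T w k r N hk hw
  have hN : 0 < N := by omega
  have hr : 0 < r + 1 := Nat.succ_pos r
  refine ⟨part1 k r, part2 k r, fun e hOk => ⟨?_, ?_, ?_⟩⟩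
  · unfold meas pot
    rw [Finset.sum_range]
    refine Finset.sum_congr rfl fun l _ => ?_
    obtain ⟨h1, h2⟩ := hOk l.val l.2
    have e1 : (wd w k N e l).length = dig N e (2 * l.val + 1) - dig N e (2 * l.val) :=
      sl_length w h1 h2
    rw [e1, Nat.div_one, Nat.div_one]
  · intro c hc
    rw [vld_iff] at hc
    -- the chain of points
    have chain : ∀ l < k, (∀ i ≤ r, pt k N e c (lD k r (l * (r + 1) + i)) ≤
        pt k N e c (rD k r (l * (r + 1) + i))) ∧ (∀ i < r, pt k N e c (rD k r (l * (r + 1) + i)) =
        pt k N e c (lD k r (l * (r + 1) + (i + 1)))) := by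
      intro l hl
      refine ⟨fun i hi => hc _ (mul_lt l i hl hi), fun i hi => ?_⟩
      rw [rD_lt l hi, lD_succ l hi]
    have hA0 : ∀ l < k, pt k N e c (lD k r (l * (r + 1) + 0)) = dig N e (2 * l) := by
      intro l hl
      rw [lD_zero, pt_left (by omega)]
    have hZr : ∀ l < k, pt k N e c (rD k r (l * (r + 1) + r)) = dig N e (2 * l + 1) := by
      intro l hl
      rw [rD_last, pt_left (by omega)]
    have hZle : ∀ l < k, ∀ i ≤ r, pt k N e c (rD k r (l * (r + 1) + i)) ≤ w.length := by
      intro l hl
      obtain ⟨h1, h2⟩ := chain l hl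
      have key : ∀ j, ∀ i, i + j = r → pt k N e c (rD k r (l * (r + 1) + i)) ≤ w.length := by
        intro j
        induction j with
        | zero =>
          intro i hi
          have : i = r := by omega
          rw [this, hZr l hl]
          exact (hOk l hl).2
        | succ j ih =>
          intro i hi
          rw [h2 i (by omega)]
          exact le_trans (h1 (i + 1) (by omega)) (ih (i + 1) (by omega))
      intro i hi
      exact key (r - i) i (by omega)
    refine ⟨?_, ?_, ?_⟩
    · intro l
      obtain ⟨h1, h2⟩ := chain l.val l.2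
      have h3 := (flat w (fun i => pt k N e c (lD k r (l.val * (r + 1) + i)))
        (fun i => pt k N e c (rD k r (l.val * (r + 1) + i))) r h1 h2).2
      rw [hA0 l.val l.2, hZr l.val l.2] at h3
      exact h3
    · intro π
      -- the two endpoints of the component number l
      have ends : ∀ l < k, (dig N (yN k r N e c π) (2 * l) =
            if dig (k * (r + 1) + 1) π l < k * (r + 1) then
              pt k N e c (lD k r (dig (k * (r + 1) + 1) π l)) else pt k N e c 0) ∧
          (dig N (yN k r N e c π) (2 * l + 1) =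
            if dig (k * (r + 1) + 1) π l < k * (r + 1) then
              pt k N e c (rD k r (dig (k * (r + 1) + 1) π l)) else pt k N e c 0) := by
        intro l hl
        constructor
        · rw [dig_yN hN (by omega)]
          unfold sel
          have a1 : 2 * l / 2 = l := by omega
          have a2 : 2 * l % 2 = 0 := by omega
          rw [a1, a2, ifz_lt01, Pool.Agent.Helper31.RG.ifz_zero]
          split_ifs <;> rfl
        · rw [dig_yN hN (by omega)]
          unfold sel
          have a1 : (2 * l + 1) / 2 = l := by omega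
          have a2 : (2 * l + 1) % 2 = 1 := by omega
          rw [a1, a2, ifz_lt01, ifz_pos one_ne_zero]
          split_ifs <;> rfl
      have hsplit : ∀ D, D < k * (r + 1) → D / (r + 1) < k ∧ D % (r + 1) ≤ r ∧
          D / (r + 1) * (r + 1) + D % (r + 1) = D := by
        intro D hD
        refine ⟨(Nat.div_lt_iff_lt_mul hr).2 hD, Nat.le_of_lt_succ (Nat.mod_lt _ hr), ?_⟩
        rw [Nat.mul_comm]
        exact Nat.div_add_mod D (r + 1)
      refine ⟨?_, ?_⟩
      · intro l hl
        obtain ⟨h1, h2⟩ := ends l hl
        rw [h1, h2]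
        split_ifs with hD
        · obtain ⟨s1, s2, s3⟩ := hsplit _ hD
          have t1 := (chain _ s1).1 _ s2
          have t2 := hZle _ s1 _ s2
          rw [s3] at t1 t2
          exact ⟨t1, t2⟩
        · refine ⟨le_rfl, ?_⟩
          rw [pt_left (by omega)]
          have := hOk 0 hk
          rw [Nat.mul_zero] at this
          exact le_trans this.1 this.2
      · funext j
        obtain ⟨h1, h2⟩ := ends j.val j.2
        unfold wd subT
        rw [h1, h2]
        by_cases hD : dig (k * (r + 1) + 1) π j.val < k * (r + 1)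
        · obtain ⟨s1, s2, s3⟩ := hsplit _ hD
          rw [if_pos hD, if_pos hD]
          have e1 : patt k r π j = some (⟨dig (k * (r + 1) + 1) π j.val / (r + 1), s1⟩,
              ⟨dig (k * (r + 1) + 1) π j.val % (r + 1), Nat.mod_lt _ hr⟩) := by
            unfold patt
            rw [dif_pos s1]
          rw [e1]
          simp only [Option.elim_some]
          unfold pcs
          simp only [s3]
        · rw [if_neg hD, if_neg hD, sl_self]
          have e1 : patt k r π j = none := by
            unfold patt
            rw [dif_neg]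
            intro h
            exact hD ((Nat.div_lt_iff_lt_mul hr).1 h)
          rw [e1]
          rfl
    · intro l i
      exact ⟨(chain l.val l.2).1 i.val (Nat.le_of_lt_succ i.2),
        hZle l.val l.2 i.val (Nat.le_of_lt_succ i.2)⟩
  · intro D hD
    -- partial sums
    let ln : ℕ → ℕ → ℕ := fun l i => if h : l < k ∧ i < r + 1 then (D ⟨l, h.1⟩ ⟨i, h.2⟩).length else 0
    let S : ℕ → ℕ → ℕ := fun l i => ∑ i' ∈ range i, ln l i'
    have hln : ∀ (l : Fin k) (i : Fin (r + 1)), ln l.val i.val = (D l i).length := by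
      intro l i
      change (if h : l.val < k ∧ i.val < r + 1 then _ else _) = _
      rw [dif_pos ⟨l.2, i.2⟩]
    have hSmono : ∀ l i j, i ≤ j → S l i ≤ S l j := by
      intro l i j hij
      exact Finset.sum_le_sum_of_subset (Finset.range_mono hij)
    have htot : ∀ l (hl : l < k), S l (r + 1) = dig N e (2 * l + 1) - dig N e (2 * l) := by
      intro l hl
      have h1 := congrArg List.length (hD ⟨l, hl⟩)
      obtain ⟨h2, h3⟩ := hOk l hl
      have e1 : (wd w k N e ⟨l, hl⟩).length = dig N e (2 * l + 1) - dig N e (2 * l) :=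
        sl_length w h2 h3
      rw [e1, List.length_flatten, List.map_ofFn, List.sum_ofFn] at h1
      rw [← h1]
      change ∑ i' ∈ range (r + 1), ln l i' = _
      rw [Finset.sum_range]
      refine Finset.sum_congr rfl fun i _ => ?_
      exact hln ⟨l, hl⟩ i
    let P : ℕ → ℕ := fun t => dig N e (2 * (t / r)) + S (t / r) (t % r + 1)
    have hdiv : ∀ t < k * r, t / r < k ∧ t % r < r := by
      intro t ht
      have hr0 : 0 < r := Nat.pos_of_ne_zero fun h => by
        rw [h, Nat.mul_zero] at ht
        omega
      exact ⟨(Nat.div_lt_iff_lt_mul hr0).2 ht, Nat.mod_lt _ hr0⟩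
    have hP : ∀ t < k * r, P t < N := by
      intro t ht
      obtain ⟨h1, h2⟩ := hdiv t ht
      have h3 := hSmono (t / r) (t % r + 1) (r + 1) (by omega)
      rw [htot _ h1] at h3
      obtain ⟨h4, h5⟩ := hOk _ h1
      change dig N e (2 * (t / r)) + S (t / r) (t % r + 1) < N
      omega
    let c := tab N (k * r) P
    have hcut : ∀ l < k, ∀ i < r, pt k N e c (2 * k + (l * r + i)) =
        dig N e (2 * l) + S l (i + 1) := by
      intro l hl i hi
      rw [pt_right (by omega), Nat.add_sub_cancel_left]
      have h1 : l * r + i < k * r := by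
        have : (l + 1) * r ≤ k * r := Nat.mul_le_mul_right _ hl
        rw [Nat.succ_mul] at this
        omega
      have h2 : dig N c (l * r + i) = P (l * r + i) := dig_tab hP h1
      rw [h2]
      have h3 : (l * r + i) / r = l := by
        rw [Nat.add_comm, Nat.add_mul_div_right _ _ (by omega), Nat.div_eq_of_lt hi, zero_add]
      have h4 : (l * r + i) % r = i := by
        rw [Nat.add_comm, Nat.add_mul_mod_self_right, Nat.mod_eq_of_lt hi]
      change dig N e (2 * ((l * r + i) / r)) + S ((l * r + i) / r) ((l * r + i) % r + 1) = _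
      rw [h3, h4]
    have hA : ∀ l < k, ∀ i ≤ r, pt k N e c (lD k r (l * (r + 1) + i)) = dig N e (2 * l) + S l i := by
      intro l hl i hi
      cases i with
      | zero =>
        rw [lD_zero, pt_left (by omega)]
        change _ = _ + ∑ i' ∈ range 0, ln l i'
        rw [Finset.sum_range_zero, add_zero]
      | succ i => rw [lD_succ l (by omega), hcut l hl i (by omega)]
    have hZ : ∀ l < k, ∀ i ≤ r, pt k N e c (rD k r (l * (r + 1) + i)) =
        dig N e (2 * l) + S l (i + 1) := by
      intro l hl i hi
      rcases Nat.lt_or_ge i r with h | h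
      · rw [rD_lt l h, hcut l hl i h]
      · have : i = r := by omega
        rw [this, rD_last, pt_left (by omega), htot l hl]
        have := (hOk l hl).1
        omega
    refine ⟨c, tab_lt hP, ?_, ?_⟩
    · rw [vld_iff]
      intro p hp
      have s1 : p / (r + 1) < k := (Nat.div_lt_iff_lt_mul hr).2 hp
      have s2 : p % (r + 1) ≤ r := Nat.le_of_lt_succ (Nat.mod_lt _ hr)
      have s3 : p / (r + 1) * (r + 1) + p % (r + 1) = p := by
        rw [Nat.mul_comm]
        exact Nat.div_add_mod p (r + 1)
      have h1 := hA _ s1 _ s2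
      have h2 := hZ _ s1 _ s2
      rw [s3] at h1 h2
      rw [h1, h2]
      exact Nat.add_le_add_left (hSmono _ _ _ (Nat.le_succ _)) _
    · funext l i
      unfold pcs
      rw [hA l.val l.2 i.val (Nat.le_of_lt_succ i.2), hZ l.val l.2 i.val (Nat.le_of_lt_succ i.2)]
      unfold sl
      have hfl := hD l
      obtain ⟨h4, h5⟩ := hOk l.val l.2
      have hwd : wd w k N e l = (w.drop (dig N e (2 * l.val))).take
        (dig N e (2 * l.val + 1) - dig N e (2 * l.val)) := rfl
      rw [hwd] at hfl
      have hmap : ∀ j ≤ r + 1, (((List.ofFn (D l)).map List.length).take j).sum = S l.val j := by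
        intro j hj
        induction j with
        | zero => simp [S]
        | succ j ih =>
          have hj' : j < (List.ofFn (D l)).length := by rw [List.length_ofFn]; omega
          rw [List.take_add_one, List.sum_append, ih (by omega)]
          change S l.val j + _ = ∑ i' ∈ range (j + 1), ln l.val i'
          rw [Finset.sum_range_succ]
          congr 1
          have := hln l ⟨j, by omega⟩
          rw [List.getElem?_map, List.getElem?_eq_getElem hj']
          simp only [Option.map_some, Option.toList_some, List.sum_singleton, List.getElem_ofFn]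
          exact this.symm
      have hi' : i.val < (List.ofFn (D l)).length := by rw [List.length_ofFn]; exact i.2
      have key := List.drop_take_succ_flatten_eq_getElem (List.ofFn (D l)) i.val hi'
      rw [hmap _ (Nat.le_of_lt i.2), hmap _ i.2, hfl, List.getElem_ofFn] at key
      have hS : S l.val (i.val + 1) ≤ dig N e (2 * l.val + 1) - dig N e (2 * l.val) := by
        rw [← htot l.val l.2]
        exact hSmono _ _ _ i.2
      rw [List.take_take, Nat.min_eq_left hS, List.drop_take, List.drop_drop] at key
      have e2 : dig N e (2 * l.val) + S l.val (i.val + 1) - (dig N e (2 * l.val) + S l.val i.val) =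
          S l.val (i.val + 1) - S l.val i.val := by omega
      rw [e2]
      exact key

end Pool.Agent.Helper59.RG.PkWRD
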